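import Pool.Agent.W443.J5.Stms
import Pool.Agent.H928R2.ThreeCore

/-!
# J5-C2: a common zero, the case of the additional monomial `y`
-/

set_option autoImplicit false

open Polynomial

namespace Pool.Agent.W376.J5

universe u

variable {K : Type u} [Field K] [IsAlgClosed K]

omit [IsAlgClosed K] in
lemma natDegree_lin {l m : K} (hm : m ≠ 0) (M : ℕ) :
    ((C l + C m * X : K[X]) ^ M).natDegree = M := by
  rw [natDegree_pow, add_comm, natDegree_linear hm, mul_one]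

omit [IsAlgClosed K] in
lemma lin_ne {l m : K} (hm : m ≠ 0) (M : ℕ) : ((C l + C m * X : K[X]) ^ M) ≠ 0 := by
  apply pow_ne_zero
  intro h
  have h1 := congrArg (fun f : K[X] => f.coeff 1) h
  simp at h1
  exact hm h1

lemma root1 {l m c1 c2 : K} (hm : m ≠ 0) (h1 : c1 ≠ 0) (h2 : c2 ≠ 0) {N M : ℕ}
    (hN : 1 ≤ N) (hM : 1 ≤ M) :
    ∃ σ : K, σ ≠ 0 ∧ l + m * σ ≠ 0 ∧ c1 * σ ^ N * (l + m * σ) ^ M = c2 := by
  have hd : (C c1 * X ^ N * (C l + C m * X) ^ M - C c2 : K[X]).natDegree = N + M := by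
    rw [natDegree_sub_C, natDegree_mul (mul_ne_zero (C_ne_zero.mpr h1) (pow_ne_zero _ X_ne_zero))
      (lin_ne hm M), natDegree_lin hm, natDegree_C_mul h1, natDegree_X_pow]
  have hd' : (C c1 * X ^ N * (C l + C m * X) ^ M - C c2 : K[X]).degree ≠ 0 := by
    intro h
    have := natDegree_eq_zero_iff_degree_le_zero.mpr h.le
    omega
  obtain ⟨σ, hσ⟩ := IsAlgClosed.exists_root _ hd'
  have e : c1 * σ ^ N * (l + m * σ) ^ M = c2 := by
    have h3 := hσ
    simp only [IsRoot, eval_sub, eval_mul, eval_C, eval_pow, eval_X, eval_add] at h3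
    exact sub_eq_zero.mp h3
  refine ⟨σ, ?_, ?_, e⟩
  · rintro rfl
    rw [zero_pow (by omega)] at e
    exact h2 (by rw [← e]; ring)
  · intro h
    rw [h, zero_pow (by omega)] at e
    exact h2 (by rw [← e]; ring)

lemma root2 {l m c1 c2 : K} (hl : l ≠ 0) (hm : m ≠ 0) (h1 : c1 ≠ 0) (h2 : c2 ≠ 0) {N M : ℕ}
    (hM : 1 ≤ M) (hN : M < N) :
    ∃ σ : K, σ ≠ 0 ∧ l + m * σ ≠ 0 ∧ c1 * σ ^ N = c2 * (l + m * σ) ^ M := by
  have hd : (C c1 * X ^ N - C c2 * (C l + C m * X) ^ M : K[X]).natDegree = N := by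
    rw [natDegree_sub_eq_left_of_natDegree_lt, natDegree_C_mul h1, natDegree_X_pow]
    rw [natDegree_C_mul h2, natDegree_lin hm, natDegree_C_mul h1, natDegree_X_pow]
    exact hN
  have hd' : (C c1 * X ^ N - C c2 * (C l + C m * X) ^ M : K[X]).degree ≠ 0 := by
    intro h
    have := natDegree_eq_zero_iff_degree_le_zero.mpr h.le
    omega
  obtain ⟨σ, hσ⟩ := IsAlgClosed.exists_root _ hd'
  have e : c1 * σ ^ N = c2 * (l + m * σ) ^ M := by
    have h3 := hσ
    simp only [IsRoot, eval_sub, eval_mul, eval_C, eval_pow, eval_X, eval_add] at h3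
    exact sub_eq_zero.mp h3
  have hσ0 : σ ≠ 0 := by
    rintro rfl
    rw [zero_pow (by omega), mul_zero, mul_zero, add_zero] at e
    exact mul_ne_zero h2 (pow_ne_zero _ hl) e.symm
  refine ⟨σ, hσ0, ?_, e⟩
  intro h
  rw [h, zero_pow (by omega), mul_zero] at e
  exact mul_ne_zero h1 (pow_ne_zero _ hσ0) e

/-- the equations for `σ` and `x` -/
lemma exists_sx {A B l m : K} {p q : ℕ} (hA : A ≠ 0) (hB : B ≠ 0) (hl : l ≠ 0) (hm : m ≠ 0)
    (hp : 2 ≤ p) (hq : 2 ≤ q) (hpq : p ≠ q) :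
    ∃ σ x : K, σ ≠ 0 ∧ x ≠ 0 ∧ x ^ (2 * p - 1) * (l + m * σ) = A ∧
      σ ^ (q - 1) * (A / B) ^ q * x ^ q = x ^ p := by
  rcases Nat.lt_or_ge q p with h | h
  · -- `q < p`
    have hg : 0 < Nat.gcd (2 * p - 1) (p - q) := Nat.gcd_pos_of_pos_left _ (by omega)
    obtain ⟨a1, ha1⟩ := Nat.gcd_dvd_left (2 * p - 1) (p - q)
    obtain ⟨a2, ha2⟩ := Nat.gcd_dvd_right (2 * p - 1) (p - q)
    set g := Nat.gcd (2 * p - 1) (p - q) with hgdef
    have ha1' : 1 ≤ a1 := by
      rcases Nat.eq_zero_or_pos a1 with h0 | h0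
      · rw [h0] at ha1; omega
      · exact h0
    have ha2' : 1 ≤ a2 := by
      rcases Nat.eq_zero_or_pos a2 with h0 | h0
      · rw [h0] at ha2; omega
      · exact h0
    have hco : Nat.Coprime a1 a2 := by
      have h1 : g = g * Nat.gcd a1 a2 := by
        rw [← Nat.gcd_mul_left, ← ha1, ← ha2]
      exact Nat.eq_of_mul_eq_mul_left hg (by rw [← h1, mul_one])
    obtain ⟨σ, hσ, hτ, he⟩ := root1 (l := l) (m := m) (c1 := (A / B) ^ (q * a1)) (c2 := A ^ a2) hm
      (pow_ne_zero _ (div_ne_zero hA hB)) (pow_ne_zero _ hA) (N := (q - 1) * a1) (M := a2)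
      (Nat.mul_pos (by omega) ha1') ha2'
    obtain ⟨x, hx0, hx1, hx2⟩ := Pool.Agent.H928R2.Three.pow_solve hg hco (A / (l + m * σ))
      ((A / B) ^ q * σ ^ (q - 1)) (div_ne_zero hA hτ)
      (mul_ne_zero (pow_ne_zero _ (div_ne_zero hA hB)) (pow_ne_zero _ hσ)) (by
        rw [div_pow, div_eq_iff (pow_ne_zero _ hτ), mul_pow, ← pow_mul, ← pow_mul]
        exact he.symm)
    rw [← ha1] at hx1
    rw [← ha2] at hx2
    refine ⟨σ, x, hσ, hx0, ?_, ?_⟩
    · rw [hx1]; field_simp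
    · have h3 : x ^ p = x ^ (p - q) * x ^ q := by
        rw [← pow_add]; congr 1; omega
      rw [h3, hx2]
      ring
  · -- `p < q`
    have h' : p < q := lt_of_le_of_ne h hpq
    have hg : 0 < Nat.gcd (2 * p - 1) (q - p) := Nat.gcd_pos_of_pos_left _ (by omega)
    obtain ⟨a1, ha1⟩ := Nat.gcd_dvd_left (2 * p - 1) (q - p)
    obtain ⟨a2, ha2⟩ := Nat.gcd_dvd_right (2 * p - 1) (q - p)
    set g := Nat.gcd (2 * p - 1) (q - p) with hgdef
    have ha1' : 1 ≤ a1 := by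
      rcases Nat.eq_zero_or_pos a1 with h0 | h0
      · rw [h0] at ha1; omega
      · exact h0
    have ha2' : 1 ≤ a2 := by
      rcases Nat.eq_zero_or_pos a2 with h0 | h0
      · rw [h0] at ha2; omega
      · exact h0
    have hco : Nat.Coprime a1 a2 := by
      have h1 : g = g * Nat.gcd a1 a2 := by
        rw [← Nat.gcd_mul_left, ← ha1, ← ha2]
      exact Nat.eq_of_mul_eq_mul_left hg (by rw [← h1, mul_one])
    have hdeg : a2 < (q - 1) * a1 := by
      have h1 : g * a2 < g * ((q - 1) * a1) := by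
        have h2 : g * ((q - 1) * a1) = (q - 1) * (2 * p - 1) := by rw [ha1]; ring
        rw [h2, ← ha2]
        obtain ⟨p', rfl⟩ : ∃ p', p = p' + 2 := ⟨p - 2, by omega⟩
        obtain ⟨q', rfl⟩ : ∃ q', q = q' + 3 := ⟨q - 3, by omega⟩
        have e1 : 2 * (p' + 2) - 1 = 2 * p' + 3 := by omega
        have e2 : q' + 3 - 1 = q' + 2 := by omega
        rw [e1, e2]
        have e3 : q' + 3 - (p' + 2) ≤ q' + 3 := Nat.sub_le _ _
        nlinarith
      exact Nat.lt_of_mul_lt_mul_left h1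
    obtain ⟨σ, hσ, hτ, he⟩ := root2 (l := l) (m := m) (c1 := A ^ a2) (c2 := (B / A) ^ (q * a1)) hl hm
      (pow_ne_zero _ hA) (pow_ne_zero _ (div_ne_zero hB hA)) (N := (q - 1) * a1) (M := a2)
      ha2' hdeg
    obtain ⟨x, hx0, hx1, hx2⟩ := Pool.Agent.H928R2.Three.pow_solve hg hco (A / (l + m * σ))
      ((B / A) ^ q / σ ^ (q - 1)) (div_ne_zero hA hτ)
      (div_ne_zero (pow_ne_zero _ (div_ne_zero hB hA)) (pow_ne_zero _ hσ)) (by
        rw [div_pow, div_pow, ← pow_mul, ← pow_mul, div_eq_div_iff (pow_ne_zero _ hτ)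
          (pow_ne_zero _ hσ)]
        exact he)
    rw [← ha1] at hx1
    rw [← ha2] at hx2
    refine ⟨σ, x, hσ, hx0, ?_, ?_⟩
    · rw [hx1]; field_simp
    · have h3 : x ^ q = x ^ (q - p) * x ^ p := by
        rw [← pow_add]; congr 1; omega
      rw [h3, hx2]
      have h4 : (A / B) ^ q * (B / A) ^ q = 1 := by
        rw [← mul_pow, div_mul_div_cancel₀ hB, div_self hA, one_pow]
      have h5 : σ ^ (q - 1) ≠ 0 := pow_ne_zero _ hσ
      calc σ ^ (q - 1) * (A / B) ^ q * ((B / A) ^ q / σ ^ (q - 1) * x ^ p)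
          = ((A / B) ^ q * (B / A) ^ q) * (σ ^ (q - 1) / σ ^ (q - 1)) * x ^ p := by ring
        _ = x ^ p := by rw [h4, div_self h5]; ring

theorem c2 : Pool.Agent.W443.J5.S_C2.{u} := by
  intro K _ _ _ α γ κ l m p q hα hγ hκ hl hm hp hq hpq
  have hpK : (p : K) ≠ 0 := Nat.cast_ne_zero.mpr (by omega)
  have hqK : (q : K) ≠ 0 := Nat.cast_ne_zero.mpr (by omega)
  set A : K := -α / (2 * κ * l * p) with hAdef
  set B : K := -γ / (2 * κ * m * q) with hBdef
  have hden1 : 2 * κ * l * p ≠ 0 :=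
    mul_ne_zero (mul_ne_zero (mul_ne_zero two_ne_zero hκ) hl) hpK
  have hden2 : 2 * κ * m * q ≠ 0 :=
    mul_ne_zero (mul_ne_zero (mul_ne_zero two_ne_zero hκ) hm) hqK
  have hA : A ≠ 0 := div_ne_zero (neg_ne_zero.mpr hα) hden1
  have hB : B ≠ 0 := div_ne_zero (neg_ne_zero.mpr hγ) hden2
  have hA' : 2 * κ * l * p * A = -α := by rw [hAdef]; field_simp
  have hB' : 2 * κ * m * q * B = -γ := by rw [hBdef]; field_simp
  suffices h : ∃ x y : K, x ^ (p - 1) * (l * x ^ p + m * y ^ q) = A ∧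
      y ^ (q - 1) * (l * x ^ p + m * y ^ q) = B by
    obtain ⟨x, y, h1, h2⟩ := h
    refine ⟨x, y, ?_, ?_⟩
    · rw [mul_assoc, h1, hA']; ring
    · rw [mul_assoc, h2, hB']; ring
  rcases Nat.lt_or_ge p 2 with h | h
  · obtain rfl : p = 1 := by omega
    obtain ⟨y, hy⟩ := IsAlgClosed.exists_pow_nat_eq (B / A) (show 0 < q - 1 by omega)
    have h1 : l * ((A - m * y ^ q) / l) ^ 1 + m * y ^ q = A := by
      rw [pow_one, mul_div_cancel₀ _ hl]; ring
    refine ⟨(A - m * y ^ q) / l, y, ?_, ?_⟩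
    · rw [h1, Nat.sub_self, pow_zero, one_mul]
    · rw [h1, hy, div_mul_cancel₀ _ hA]
  · obtain ⟨σ, x, hσ, hx, e1, e2⟩ := exists_sx hA hB hl hm h hq hpq
    set y : K := σ * x * A / B with hy
    have hy0 : y ≠ 0 := div_ne_zero (mul_ne_zero (mul_ne_zero hσ hx) hA) hB
    have hyq : y ^ q = σ * x ^ p := by
      rw [← e2]
      have h3 : σ ^ q = σ * σ ^ (q - 1) := by
        rw [← pow_succ']; congr 1; omega
      have h4 : y = σ * x * (A / B) := by rw [hy]; ring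
      rw [h4, mul_pow, mul_pow, h3]
      ring
    have hR : x ^ (p - 1) * (l * x ^ p + m * y ^ q) = A := by
      rw [hyq, ← e1]
      have h3 : x ^ (2 * p - 1) = x ^ (p - 1) * x ^ p := by
        rw [← pow_add]; congr 1; omega
      rw [h3]; ring
    refine ⟨x, y, hR, ?_⟩
    apply mul_left_cancel₀ hy0
    have h3 : y * (y ^ (q - 1) * (l * x ^ p + m * y ^ q)) = y ^ q * (l * x ^ p + m * y ^ q) := by
      rw [← mul_assoc, ← pow_succ']
      congr 2
      omega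
    have h4 : x ^ p = x * x ^ (p - 1) := by
      rw [← pow_succ']; congr 1; omega
    rw [h3]
    nth_rewrite 1 [hyq]
    calc σ * x ^ p * (l * x ^ p + m * y ^ q)
        = σ * (x * x ^ (p - 1)) * (l * x ^ p + m * y ^ q) := by rw [← h4]
      _ = σ * x * (x ^ (p - 1) * (l * x ^ p + m * y ^ q)) := by ring
      _ = σ * x * A := by rw [hR]
      _ = y * B := by rw [hy, div_mul_cancel₀ _ hB]

end Pool.Agent.W376.J5
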